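import Mathlib
import Pool.Agent.Helper5.MinkEq.Defs
import Pool.Agent.Helper5.MinkEq.Main

namespace Pool.Agent.Results.MP_b57d95_nt.CoveringRadius

open Matrix Pool.Agent.Helper5.MinkEq

/-- If some positive diagonal rescaling of the forms, normalised to covolume one, has the
property that every translate of its lattice has a point whose coordinates have `p`-mean at most
`1/2` (for one real `p > 1`; for `p = 2` this says that the covering radius is at most
`sqrt d / 2`), then every equality case with these forms is diagonalisable. -/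
theorem result (d : ℕ) (L : Matrix (Fin d) (Fin d) ℝ) (p : ℝ) (hp : 1 < p)
    (lam : Fin d → ℝ) (hlam : ∀ k, 0 < lam k) (hnorm : (∏ k, lam k) * |L.det| = 1)
    (hcov : ∀ y : Fin d → ℝ, ∃ n : Fin d → ℤ,
      ∑ k, |lam k * ((L *ᵥ fun j => (n j : ℝ)) k + y k)| ^ p ≤ d * (1 / 2) ^ p) :
    ∀ c : Fin d → ℝ, IsEqualityCase L c → Diagonalisable L c :=
  fun c h => Pool.Agent.Helper5.MinkEq.main L c p lam hp hlam hnorm hcov h

end Pool.Agent.Results.MP_b57d95_nt.CoveringRadius
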