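import Mathlib
import Pool.Agent.Helper16.MK.Final

namespace Pool.Agent.Results.MP_b57d95_nt.ExponentialGain

/-- For all `d`, all real linear forms `L_1, ..., L_d` in `d` variables with determinant
`Δ ≠ 0` and all real `c_1, ..., c_d` there is an integer vector `n` with
`∏ |L_k(n) + c_k| ≤ |Δ| (2 + 10⁻⁸)^(-d/2)`. -/
theorem result (d : ℕ) (L : Matrix (Fin d) (Fin d) ℝ) (hL : L.det ≠ 0) (c : Fin d → ℝ) :
    ∃ n : Fin d → ℤ, |∏ k, (∑ j, L k j * (n j : ℝ) + c k)| * √(2 + 1 / 10 ^ 8) ^ d ≤ |L.det| := by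
  obtain ⟨n, hn⟩ := Pool.Agent.Helper16.MK.main L hL c
  rw [Fintype.card_fin] at hn
  exact ⟨n, hn⟩

end Pool.Agent.Results.MP_b57d95_nt.ExponentialGain
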