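import Mathlib
import Pool.Agent.Helper5.MinkEq.Defs
import Pool.Agent.Helper5.MinkEq.IsoMain

namespace Pool.Agent.Results.MP_b57d95_nt.LocalUniqueness

open Matrix Pool.Agent.Helper5.MinkEq

/-- The extremal configuration is isolated: in each dimension there is `ε > 0` such that an
equality case is diagonalisable as soon as, after an integral unimodular change of variables and
an integral shift, its matrix is `ε`-close to a diagonal matrix and its constant vector is
`ε`-close to half of the diagonal (both relative to the diagonal entry of the row). -/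
theorem result (d : ℕ) : ∃ ε : ℝ, 0 < ε ∧
    ∀ (L : Matrix (Fin d) (Fin d) ℝ) (c : Fin d → ℝ), IsEqualityCase L c →
    (∃ (U : Matrix (Fin d) (Fin d) ℤ) (m : Fin d → ℤ), IsUnit U.det ∧
      ∀ k, (∀ j, j ≠ k → |(L * U.map (Int.cast : ℤ → ℝ)) k j| ≤
          ε * |(L * U.map (Int.cast : ℤ → ℝ)) k k|) ∧
        |2 * (c k + (L *ᵥ fun j => (m j : ℝ)) k) - (L * U.map (Int.cast : ℤ → ℝ)) k k| ≤
          ε * |(L * U.map (Int.cast : ℤ → ℝ)) k k|) →
    Diagonalisable L c :=
  Pool.Agent.Helper5.MinkEq.isolation d

end Pool.Agent.Results.MP_b57d95_nt.LocalUniqueness
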